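import Pool.Agent.OB9.Final

/-!
# Operator blocks in Orlicz spaces: the classification

For every Orlicz function `Φ`, some bounded operator `T` of `L^Φ` has all its blocks `Q_e T Q_f`
bounded below in norm if and only if none of the following three conditions holds: `Φ` is bounded
by a linear function on `[1,∞)` (that is, `L^Φ = L^1`); `Φ` is thin; the conjugate function of `Φ` is
thin.
-/

set_option autoImplicit false

namespace Pool.Agent.Results.MP_7f9a53_an.OrliczOperatorBlocks

open Pool.Agent.OB9

/-- `𝒟(L^Φ) ≠ ∅` if and only if `Φ` is not linear at infinity and neither `Φ` nor its conjugate is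
thin. -/
theorem result (Φ : ℝ → ℝ) (hΦ : Orl Φ) :
    DNonempty Φ ↔
      ¬ ((∃ C : ℝ, ∀ t, 1 ≤ t → Φ t ≤ C * t) ∨ Thin Φ ∨ Thin (conj Φ)) :=
  classification hΦ

end Pool.Agent.Results.MP_7f9a53_an.OrliczOperatorBlocks
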